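import Pool.Agent.H13.BT.Sel

/-!
Lower bound `G_q(R) ≥ (φ(q)/q) log R / 3`.
-/

set_option autoImplicit false

open Finset

namespace Pool.Agent.H13.BT

noncomputable section

/-- `1 / φ(l)` of a squarefree number as a product over its primes -/
lemma totient_sqfree {l : ℕ} (h : Squarefree l) :
    (1 : ℝ) / Nat.totient l = ∏ p ∈ l.primeFactors, (1 / ((p : ℝ) - 1)) := by
  have hl : l ≠ 0 := h.ne_zero
  have h1 := Nat.totient_mul_prod_primeFactors l
  have h2 : ∏ p ∈ l.primeFactors, p = l := Nat.prod_primeFactors_of_squarefree h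
  rw [h2, mul_comm] at h1
  have h3 : Nat.totient l = ∏ p ∈ l.primeFactors, (p - 1) :=
    Nat.eq_of_mul_eq_mul_left (Nat.pos_of_ne_zero hl) h1
  rw [h3, Finset.prod_div_distrib, Finset.prod_const_one, Nat.cast_prod]
  congr 1
  refine Finset.prod_congr rfl fun p hp => ?_
  have hp1 := (Nat.prime_of_mem_primeFactors hp).one_le
  rw [Nat.cast_sub hp1, Nat.cast_one]

/-- `q / φ(q)` as a product -/
lemma div_totient {q : ℕ} (hq : 1 ≤ q) :
    (q : ℝ) / Nat.totient q = ∏ p ∈ q.primeFactors, (1 + 1 / ((p : ℝ) - 1)) := by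
  have h1 := Nat.totient_mul_prod_primeFactors q
  have h2 : (Nat.totient q : ℝ) * ∏ p ∈ q.primeFactors, (p : ℝ) =
      q * ∏ p ∈ q.primeFactors, ((p : ℝ) - 1) := by
    have h3 : ((Nat.totient q * ∏ p ∈ q.primeFactors, p : ℕ) : ℝ) =
      ((q * ∏ p ∈ q.primeFactors, (p - 1) : ℕ) : ℝ) := by rw [h1]
    push_cast at h3
    rw [h3]
    congr 1
    refine Finset.prod_congr rfl fun p hp => ?_
    have hp1 := (Nat.prime_of_mem_primeFactors hp).one_le
    rw [Nat.cast_sub hp1, Nat.cast_one]
  have hpos : ∀ p ∈ q.primeFactors, (0 : ℝ) < (p : ℝ) - 1 := by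
    intro p hp
    have hp1 : (1 : ℝ) < p := by exact_mod_cast (Nat.prime_of_mem_primeFactors hp).one_lt
    linarith
  have h4 : ∏ p ∈ q.primeFactors, (1 + 1 / ((p : ℝ) - 1)) =
      (∏ p ∈ q.primeFactors, (p : ℝ)) / ∏ p ∈ q.primeFactors, ((p : ℝ) - 1) := by
    rw [← Finset.prod_div_distrib]
    refine Finset.prod_congr rfl fun p hp => ?_
    have := hpos p hp
    field_simp
    ring
  rw [h4]
  have h5 : (0 : ℝ) < ∏ p ∈ q.primeFactors, ((p : ℝ) - 1) := Finset.prod_pos hpos
  have h6 : (0 : ℝ) < Nat.totient q := by exact_mod_cast Nat.totient_pos.2 hq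
  rw [div_eq_div_iff h6.ne' h5.ne', ← h2]
  ring

lemma sum_div_le {q : ℕ} (hq : 1 ≤ q) :
    ∑ l ∈ q.divisors, (if Squarefree l then (1 : ℝ) / Nat.totient l else 0) ≤
      (q : ℝ) / Nat.totient q := by
  classical
  rw [div_totient hq, Finset.prod_one_add, ← Finset.sum_filter]
  have h1 : ∑ l ∈ q.divisors with Squarefree l, (1 : ℝ) / Nat.totient l =
      ∑ S ∈ (q.divisors.filter Squarefree).image Nat.primeFactors,
        ∏ p ∈ S, (1 / ((p : ℝ) - 1)) := by
    rw [Finset.sum_image]
    · refine Finset.sum_congr rfl fun l hl => ?_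
      exact totient_sqfree (Finset.mem_filter.1 hl).2
    · intro a ha b hb hab
      have h2 := Nat.prod_primeFactors_of_squarefree (Finset.mem_filter.1 ha).2
      have h3 := Nat.prod_primeFactors_of_squarefree (Finset.mem_filter.1 hb).2
      rw [← h2, ← h3, hab]
  rw [h1]
  refine Finset.sum_le_sum_of_subset_of_nonneg ?_ ?_
  · intro S hS
    obtain ⟨l, hl, rfl⟩ := Finset.mem_image.1 hS
    rw [Finset.mem_powerset]
    have h2 := (Nat.mem_divisors.1 (Finset.mem_filter.1 hl).1)
    exact Nat.primeFactors_mono h2.1 h2.2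
  · intro S hS _
    refine Finset.prod_nonneg fun p hp => ?_
    have hp1 := (Nat.prime_of_mem_primeFactors (Finset.mem_powerset.1 hS hp)).one_lt
    have : (1 : ℝ) < p := by exact_mod_cast hp1
    exact div_nonneg zero_le_one (by linarith)

lemma selG_le {q R : ℕ} (hq : 1 ≤ q) :
    Pool.Agent.H37.SFQ.selG R ≤ (q : ℝ) / Nat.totient q * selG q R := by
  classical
  have key : Pool.Agent.H37.SFQ.selG R ≤
      (∑ l ∈ q.divisors, (if Squarefree l then (1 : ℝ) / Nat.totient l else 0)) * selG q R := by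
    unfold Pool.Agent.H37.SFQ.selG selG
    rw [Finset.sum_mul_sum, ← Finset.sum_product']
    rw [← Finset.sum_filter]
    have hinj : Set.InjOn (fun k : ℕ => (Nat.gcd k q, k / Nat.gcd k q))
        ((Icc 1 R).filter Squarefree : Finset ℕ) := by
      intro a ha b hb hab
      simp only [Prod.mk.injEq] at hab
      rw [← Nat.mul_div_cancel' (Nat.gcd_dvd_left a q), hab.2, hab.1,
        Nat.mul_div_cancel' (Nat.gcd_dvd_left b q)]
    calc ∑ k ∈ Icc 1 R with Squarefree k, (1 : ℝ) / Nat.totient k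
        = ∑ k ∈ Icc 1 R with Squarefree k,
          (fun x : ℕ × ℕ => (if Squarefree x.1 then (1 : ℝ) / Nat.totient x.1 else 0) *
            (if Squarefree x.2 ∧ x.2.Coprime q then (1 : ℝ) / Nat.totient x.2 else 0))
            (Nat.gcd k q, k / Nat.gcd k q) := by
          refine Finset.sum_congr rfl fun k hk => ?_
          obtain ⟨hk1, hsq⟩ := Finset.mem_filter.1 hk
          have hk0 : 0 < k := (Finset.mem_Icc.1 hk1).1
          have hmul : Nat.gcd k q * (k / Nat.gcd k q) = k :=
            Nat.mul_div_cancel' (Nat.gcd_dvd_left k q)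
          have hsq' : Squarefree (Nat.gcd k q * (k / Nat.gcd k q)) := by rw [hmul]; exact hsq
          have hcop := Nat.coprime_of_squarefree_mul hsq'
          have hs1 : Squarefree (Nat.gcd k q) := hsq.squarefree_of_dvd (Nat.gcd_dvd_left k q)
          have hs2 : Squarefree (k / Nat.gcd k q) :=
            hsq.squarefree_of_dvd ⟨Nat.gcd k q, by rw [mul_comm]; exact hmul.symm⟩
          have hc2 : (k / Nat.gcd k q).Coprime q := by
            rw [Nat.coprime_iff_gcd_eq_one]
            by_contra hne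
            obtain ⟨p, hp, hpd⟩ := Nat.exists_prime_and_dvd hne
            have h1 := hpd.trans (Nat.gcd_dvd_left _ _)
            have h2 := hpd.trans (Nat.gcd_dvd_right _ _)
            have h3 : p ∣ Nat.gcd k q :=
              Nat.dvd_gcd (h1.trans ⟨Nat.gcd k q, by rw [mul_comm]; exact hmul.symm⟩) h2
            have h4 := Nat.dvd_gcd h3 h1
            rw [hcop.gcd_eq_one] at h4
            exact hp.one_lt.ne' (Nat.dvd_one.1 h4)
          have htot : Nat.totient k = Nat.totient (Nat.gcd k q) * Nat.totient (k / Nat.gcd k q) := by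
            rw [← Nat.totient_mul hcop, hmul]
          simp only
          rw [if_pos hs1, if_pos ⟨hs2, hc2⟩, htot, Nat.cast_mul, one_div_mul_one_div]
      _ = ∑ x ∈ ((Icc 1 R).filter Squarefree).image (fun k : ℕ => (Nat.gcd k q, k / Nat.gcd k q)),
          ((if Squarefree x.1 then (1 : ℝ) / Nat.totient x.1 else 0) *
            (if Squarefree x.2 ∧ x.2.Coprime q then (1 : ℝ) / Nat.totient x.2 else 0)) := by
          rw [Finset.sum_image hinj]
      _ ≤ _ := by
          refine Finset.sum_le_sum_of_subset_of_nonneg ?_ fun _ _ _ => by positivity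
          intro x hx
          obtain ⟨k, hk, rfl⟩ := Finset.mem_image.1 hx
          obtain ⟨hk1, hsq⟩ := Finset.mem_filter.1 hk
          rw [Finset.mem_Icc] at hk1
          have hg : 0 < Nat.gcd k q := Nat.gcd_pos_of_pos_left q hk1.1
          refine Finset.mem_product.2 ⟨?_, ?_⟩
          · exact Nat.mem_divisors.2 ⟨Nat.gcd_dvd_right k q, by omega⟩
          · rw [Finset.mem_Icc]
            refine ⟨Nat.div_pos (Nat.le_of_dvd hk1.1 (Nat.gcd_dvd_left k q)) hg, ?_⟩
            exact (Nat.div_le_self _ _).trans hk1.2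
  refine key.trans (mul_le_mul_of_nonneg_right (sum_div_le hq) ?_)
  unfold selG
  exact Finset.sum_nonneg fun _ _ => by positivity

lemma selG_ge {q R : ℕ} (hq : 1 ≤ q) (hR : 1 ≤ R) :
    (Nat.totient q : ℝ) / q * (Real.log R / 3) ≤ selG q R := by
  have h1 := (Pool.Agent.H37.SFQ.selG_ge hR).trans (selG_le (R := R) hq)
  have h6 : (0 : ℝ) < Nat.totient q := by exact_mod_cast Nat.totient_pos.2 hq
  have h7 : (0 : ℝ) < q := by exact_mod_cast hq
  calc (Nat.totient q : ℝ) / q * (Real.log R / 3)
      ≤ (Nat.totient q : ℝ) / q * ((q : ℝ) / Nat.totient q * selG q R) :=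
        mul_le_mul_of_nonneg_left h1 (by positivity)
    _ = selG q R := by field_simp

end

end Pool.Agent.H13.BT
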