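import Pool.Agent.H13.BT.G

/-!
Uniform Brun-Titchmarsh inequality (Selberg sieve).

`brun_titchmarsh`: there is `C` such that for all `x`, all `q ≥ 1`, `y ≥ 2 q` and `c` coprime to `q`
the number of primes `p ≡ c (mod q)` in `(x, x + y]` is at most `C y / (φ(q) log (y / q))`.

`sum_inv_class`: there is `C` such that for all `k`, all `q` with `1 ≤ q`, `q² ≤ 2^(2^k)` and all `c`
coprime to `q`: `∑ 1/p ≤ C / φ(q)` over the primes `p ≡ c (mod q)` in `(2^(2^k), 2^(2^(k+1))]`.
-/

set_option autoImplicit false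

open Finset

namespace Pool.Agent.H13.BT

noncomputable section

/-- primes in a class and an interval -/
def PS (x y q c : ℕ) : Finset ℕ := (Ioc x (x + y)).filter fun p => p.Prime ∧ p ≡ c [MOD q]

/-- number of integers in a class -/
lemma card_class (x y r v : ℕ) (hr : 1 ≤ r) :
    |((((Ioc x (x + y)).filter (fun n => n ≡ v [MOD r])).card : ℕ) : ℝ) - (y : ℝ) / r| ≤ 1 := by
  have h := Nat.Ioc_filter_modEq_card x (x + y) hr v
  have hr0 : (0 : ℚ) < r := by exact_mod_cast hr
  set u : ℚ := (((x + y : ℕ) : ℚ) - v) / r with hu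
  set w : ℚ := (((x : ℕ) : ℚ) - v) / r with hw
  have huw : u - w = (y : ℚ) / r := by
    rw [hu, hw]
    push_cast
    ring
  have hy0 : (0 : ℚ) ≤ (y : ℚ) / r := by positivity
  have hle : ⌊w⌋ ≤ ⌊u⌋ := Int.floor_le_floor (by linarith)
  rw [max_eq_left (by omega)] at h
  have h1 := Int.floor_le u
  have h2 := Int.lt_floor_add_one u
  have h3 := Int.floor_le w
  have h4 := Int.lt_floor_add_one w
  have h5 : ((((Ioc x (x + y)).filter (fun n => n ≡ v [MOD r])).card : ℕ) : ℚ) =
      (⌊u⌋ : ℚ) - ⌊w⌋ := by exact_mod_cast h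
  have h6 : |((((Ioc x (x + y)).filter (fun n => n ≡ v [MOD r])).card : ℕ) : ℚ) -
      (y : ℚ) / r| ≤ 1 := by
    rw [h5, ← huw, abs_le]
    constructor <;> linarith
  have h7 := (Rat.cast_le (K := ℝ)).2 h6
  push_cast at h7
  exact h7

/-- in a class modulo `q`, multiples of `e` coprime to `q` -/
lemma card_class_dvd (x y q c e : ℕ) (hq : 1 ≤ q) (he : 1 ≤ e) (hc : e.Coprime q) :
    |((((Ioc x (x + y)).filter (fun n => n ≡ c [MOD q] ∧ e ∣ n)).card : ℕ) : ℝ) -
      (y : ℝ) / (q * e)| ≤ 1 := by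
  obtain ⟨v, hv⟩ := Nat.chineseRemainder hc 0 c
  have h1 : (Ioc x (x + y)).filter (fun n => n ≡ c [MOD q] ∧ e ∣ n) =
      (Ioc x (x + y)).filter (fun n => n ≡ v [MOD e * q]) := by
    refine Finset.filter_congr fun n _ => ?_
    constructor
    · rintro ⟨h1, h2⟩
      rw [← Nat.modEq_and_modEq_iff_modEq_mul hc]
      exact ⟨((Nat.modEq_zero_iff_dvd.2 h2)).trans hv.1.symm, h1.trans hv.2.symm⟩
    · intro h
      rw [← Nat.modEq_and_modEq_iff_modEq_mul hc] at h
      exact ⟨h.2.trans hv.2, Nat.modEq_zero_iff_dvd.1 (h.1.trans hv.1)⟩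
  rw [h1]
  have h2 := card_class x y (e * q) v (Nat.mul_pos he hq)
  have h3 : ((e * q : ℕ) : ℝ) = q * e := by push_cast; ring
  rwa [h3] at h2

/-- the sieve inequality -/
lemma sieve (x y q c R : ℕ) (hq : 1 ≤ q) (hR : 1 ≤ R) :
    ((PS x y q c).card : ℝ) ≤ (y : ℝ) / q * (1 / selG q R) + (R : ℝ) ^ 4 + R := by
  classical
  set T := (Ioc x (x + y)).filter (fun n => n ≡ c [MOD q]) with hT
  have hG := selG_pos q hR
  -- small primes
  have h1 : ((PS x y q c).card : ℝ) ≤ (((PS x y q c).filter (fun p => R < p)).card : ℝ) + R := by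
    have h2 := Finset.card_filter_add_card_filter_not (s := PS x y q c) (fun p => R < p)
    have h3 : ((PS x y q c).filter (fun p => ¬ R < p)).card ≤ R := by
      have h4 : (PS x y q c).filter (fun p => ¬ R < p) ⊆ Icc 1 R := by
        intro p hp
        obtain ⟨h5, h6⟩ := Finset.mem_filter.1 hp
        have h7 := (Finset.mem_filter.1 h5).2.1.one_le
        exact Finset.mem_Icc.2 ⟨h7, by omega⟩
      have h5 := Finset.card_le_card h4
      rwa [Nat.card_Icc, Nat.add_sub_cancel] at h5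
    have h4 : (PS x y q c).card ≤ ((PS x y q c).filter (fun p => R < p)).card + R := by omega
    exact_mod_cast h4
  -- majorant
  set W : ℕ → ℝ := fun n => ∑ e ∈ Icc 1 R, if e ∣ n then selL q R e else 0 with hW
  have h2 : (((PS x y q c).filter (fun p => R < p)).card : ℝ) ≤ ∑ n ∈ T, W n ^ 2 := by
    have h3 : (((PS x y q c).filter (fun p => R < p)).card : ℝ) =
        ∑ n ∈ (PS x y q c).filter (fun p => R < p), W n ^ 2 := by
      rw [Finset.card_eq_sum_ones, Nat.cast_sum]
      refine Finset.sum_congr rfl fun p hp => ?_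
      obtain ⟨h4, h5⟩ := Finset.mem_filter.1 hp
      have hpp := (Finset.mem_filter.1 h4).2.1
      have h6 : W p = 1 := by
        rw [hW]
        simp only
        rw [Finset.sum_eq_single 1]
        · rw [if_pos (one_dvd p), selL_one q hR]
        · intro e he hne
          rw [Finset.mem_Icc] at he
          rw [if_neg]
          intro hd
          rcases (Nat.dvd_prime hpp).1 hd with h7 | h7
          · exact hne h7
          · omega
        · intro h7
          exact absurd (Finset.mem_Icc.2 ⟨le_rfl, hR⟩) h7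
      rw [h6]
      norm_num
    rw [h3]
    refine Finset.sum_le_sum_of_subset_of_nonneg ?_ fun _ _ _ => sq_nonneg _
    intro p hp
    have h4 := (Finset.mem_filter.1 hp).1
    unfold PS at h4
    rw [Finset.mem_filter] at h4
    rw [hT, Finset.mem_filter]
    exact ⟨h4.1, h4.2.2⟩
  -- expansion
  have h3 : ∑ n ∈ T, W n ^ 2 = ∑ a ∈ Icc 1 R, ∑ b ∈ Icc 1 R, selL q R a * selL q R b *
      (((Ioc x (x + y)).filter (fun n => n ≡ c [MOD q] ∧ Nat.lcm a b ∣ n)).card : ℝ) := by
    have h4 : ∀ n ∈ T, W n ^ 2 = ∑ a ∈ Icc 1 R, ∑ b ∈ Icc 1 R, selL q R a * selL q R b *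
        (if Nat.lcm a b ∣ n then 1 else 0) := by
      intro n _
      rw [hW]
      simp only
      rw [sq, Finset.sum_mul_sum]
      refine Finset.sum_congr rfl fun a _ => Finset.sum_congr rfl fun b _ => ?_
      by_cases ha : a ∣ n
      · by_cases hb : b ∣ n
        · rw [if_pos ha, if_pos hb, if_pos (Nat.lcm_dvd ha hb), mul_one]
        · rw [if_pos ha, if_neg hb, if_neg (fun h => hb ((Nat.dvd_lcm_right a b).trans h))]
          ring
      · rw [if_neg ha, if_neg (fun h => ha ((Nat.dvd_lcm_left a b).trans h))]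
        ring
    rw [Finset.sum_congr rfl h4, Finset.sum_comm]
    refine Finset.sum_congr rfl fun a _ => ?_
    rw [Finset.sum_comm]
    refine Finset.sum_congr rfl fun b _ => ?_
    rw [← Finset.mul_sum, ← Finset.sum_filter, Finset.sum_const, nsmul_eq_mul, mul_one, hT,
      Finset.filter_filter]
  -- estimate
  have h4 : ∑ a ∈ Icc 1 R, ∑ b ∈ Icc 1 R, selL q R a * selL q R b *
      (((Ioc x (x + y)).filter (fun n => n ≡ c [MOD q] ∧ Nat.lcm a b ∣ n)).card : ℝ) ≤
      ∑ a ∈ Icc 1 R, ∑ b ∈ Icc 1 R, ((y : ℝ) / q * (selL q R a * selL q R b / (Nat.lcm a b : ℝ)) +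
        (a : ℝ) * b) := by
    refine Finset.sum_le_sum fun a ha => Finset.sum_le_sum fun b hb => ?_
    rw [Finset.mem_Icc] at ha hb
    by_cases hz : selL q R a * selL q R b = 0
    · rw [hz]
      simp only [zero_mul, zero_div, mul_zero, zero_add]
      positivity
    · have hz1 := left_ne_zero_of_mul hz
      have hz2 := right_ne_zero_of_mul hz
      have hcop : ∀ e, selL q R e ≠ 0 → e.Coprime q := by
        intro e he
        by_contra hne
        apply he
        unfold selL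
        rw [Finset.sum_eq_zero, mul_zero]
        intro k _
        split_ifs with hk
        · unfold selY
          rw [if_neg, mul_zero]
          rintro ⟨-, -, -, h5⟩
          exact hne (Nat.Coprime.coprime_dvd_left hk h5)
        · rfl
      have hL : (Nat.lcm a b).Coprime q :=
        Nat.Coprime.coprime_dvd_left (Nat.lcm_dvd_mul a b) ((hcop a hz1).mul_left (hcop b hz2))
      have hL1 : 1 ≤ Nat.lcm a b := Nat.lcm_pos (by omega) (by omega)
      have h5 := card_class_dvd x y q c _ hq hL1 hL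
      have h6 := abs_selL_le q hR a
      have h7 := abs_selL_le q hR b
      have hL0 : (0 : ℝ) < (Nat.lcm a b : ℝ) := by exact_mod_cast hL1
      have hq0 : (0 : ℝ) < q := by exact_mod_cast hq
      set N : ℝ := (((Ioc x (x + y)).filter
        (fun n => n ≡ c [MOD q] ∧ Nat.lcm a b ∣ n)).card : ℝ) with hN
      have h8 : selL q R a * selL q R b * N = (y : ℝ) / q * (selL q R a * selL q R b /
          (Nat.lcm a b : ℝ)) + selL q R a * selL q R b * (N - (y : ℝ) / (q * Nat.lcm a b)) := by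
        field_simp
        ring
      rw [h8]
      have h9 : selL q R a * selL q R b * (N - (y : ℝ) / (q * Nat.lcm a b)) ≤ (a : ℝ) * b := by
        refine (le_abs_self _).trans ?_
        rw [abs_mul, abs_mul]
        calc |selL q R a| * |selL q R b| * |N - (y : ℝ) / (q * Nat.lcm a b)|
            ≤ (a : ℝ) * b * 1 := by gcongr
          _ = (a : ℝ) * b := mul_one _
      linarith
  have h5 : ∑ a ∈ Icc 1 R, ∑ b ∈ Icc 1 R, ((y : ℝ) / q * (selL q R a * selL q R b /
      (Nat.lcm a b : ℝ)) + (a : ℝ) * b) ≤ (y : ℝ) / q * (1 / selG q R) + (R : ℝ) ^ 4 := by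
    simp only [Finset.sum_add_distrib, ← Finset.mul_sum]
    rw [selL_quad q hR, ← Finset.sum_mul]
    have h6 : ∑ a ∈ Icc 1 R, (a : ℝ) ≤ (R : ℝ) ^ 2 := by
      calc ∑ a ∈ Icc 1 R, (a : ℝ) ≤ ∑ _a ∈ Icc 1 R, (R : ℝ) :=
            Finset.sum_le_sum fun a ha => by exact_mod_cast (Finset.mem_Icc.1 ha).2
        _ = (R : ℝ) ^ 2 := by
            rw [Finset.sum_const, Nat.card_Icc, Nat.add_sub_cancel, nsmul_eq_mul, sq]
    have h7 : 0 ≤ ∑ a ∈ Icc 1 R, (a : ℝ) := Finset.sum_nonneg fun _ _ => Nat.cast_nonneg _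
    have h8 : (∑ a ∈ Icc 1 R, (a : ℝ)) * ∑ a ∈ Icc 1 R, (a : ℝ) ≤ (R : ℝ) ^ 2 * (R : ℝ) ^ 2 :=
      mul_le_mul h6 h6 h7 (by positivity)
    have h9 : (R : ℝ) ^ 2 * (R : ℝ) ^ 2 = (R : ℝ) ^ 4 := by ring
    linarith
  linarith

/-- **Brun-Titchmarsh**, uniform in `q` -/
theorem brun_titchmarsh : ∃ C : ℝ, 0 < C ∧ ∀ x y q c : ℕ, 1 ≤ q → 2 * q ≤ y →
    ((PS x y q c).card : ℝ) ≤ C * y / (Nat.totient q * Real.log ((y : ℝ) / q)) := by
  refine ⟨60, by norm_num, ?_⟩
  intro x y q c hq hy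
  have hq0 : (0 : ℝ) < q := by exact_mod_cast hq
  have hφ : (0 : ℝ) < Nat.totient q := by exact_mod_cast Nat.totient_pos.2 hq
  have hφq : (Nat.totient q : ℝ) ≤ q := by exact_mod_cast Nat.totient_le q
  set z : ℝ := (y : ℝ) / q with hz
  have hz2 : 2 ≤ z := by
    rw [hz, le_div_iff₀ hq0]
    exact_mod_cast hy
  have hlz : 0 < Real.log z := Real.log_pos (by linarith)
  have hyz : (y : ℝ) = z * q := by rw [hz]; field_simp
  have hzle : z ≤ y / Nat.totient q := by
    rw [hz]
    exact div_le_div_of_nonneg_left (Nat.cast_nonneg y) hφ hφq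
  have hgoal : 60 * (y : ℝ) / (Nat.totient q * Real.log z) =
      60 * ((y : ℝ) / Nat.totient q) / Real.log z := by
    field_simp
  rw [hgoal]
  set Y : ℝ := (y : ℝ) / Nat.totient q with hY
  rcases le_or_gt ((2 : ℝ) ^ 16) z with hbig | hsmall
  · -- the sieve
    set R : ℕ := ⌊z ^ ((1 : ℝ) / 8)⌋₊ with hR
    have hz0 : 0 < z := by linarith
    have hR4 : (4 : ℝ) ≤ z ^ ((1 : ℝ) / 8) := by
      have h1 : ((2 : ℝ) ^ 16) ^ ((1 : ℝ) / 8) ≤ z ^ ((1 : ℝ) / 8) :=
        Real.rpow_le_rpow (by positivity) hbig (by norm_num)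
      have h2 : ((2 : ℝ) ^ 16) ^ ((1 : ℝ) / 8) = 4 := by
        rw [← Real.rpow_natCast, ← Real.rpow_mul (by norm_num)]
        norm_num
      linarith
    have hRle : (R : ℝ) ≤ z ^ ((1 : ℝ) / 8) := Nat.floor_le (by positivity)
    have hRge : z ^ ((1 : ℝ) / 8) / 2 ≤ R := by
      have := Nat.lt_floor_add_one (z ^ ((1 : ℝ) / 8))
      rw [← hR] at this
      linarith
    have hR1 : 1 ≤ R := by
      have h1 : (1 : ℝ) ≤ R := by linarith
      exact_mod_cast h1
    have hs := sieve x y q c R hq hR1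
    have hGge := selG_ge (q := q) hq hR1
    have hGpos := selG_pos q hR1
    -- log R
    have hlogR : Real.log z / 16 ≤ Real.log R := by
      have h1 : Real.log (z ^ ((1 : ℝ) / 8) / 2) ≤ Real.log R := Real.log_le_log (by linarith) hRge
      rw [Real.log_div (by positivity) (by norm_num), Real.log_rpow hz0] at h1
      have h2 : 16 * Real.log 2 ≤ Real.log z := by
        have h3 := Real.log_le_log (by positivity) hbig
        rw [Real.log_pow] at h3
        exact_mod_cast h3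
      linarith
    have hlogRpos : 0 < Real.log R := by linarith
    have hmain : (y : ℝ) / q * (1 / selG q R) ≤ 48 * Y / Real.log z := by
      have h1 : (1 : ℝ) / selG q R ≤ 1 / ((Nat.totient q : ℝ) / q * (Real.log R / 3)) :=
        one_div_le_one_div_of_le (by positivity) hGge
      have h2 : (1 : ℝ) / ((Nat.totient q : ℝ) / q * (Real.log R / 3)) =
          3 * q / (Nat.totient q * Real.log R) := by
        field_simp
      have h3 : (y : ℝ) / q * (1 / selG q R) ≤ (y : ℝ) / q *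
          (3 * q / (Nat.totient q * Real.log R)) := by
        rw [h2] at h1
        exact mul_le_mul_of_nonneg_left h1 (by positivity)
      have h4 : (y : ℝ) / q * (3 * q / (Nat.totient q * Real.log R)) = 3 * Y / Real.log R := by
        rw [hY]
        field_simp
      rw [h4] at h3
      refine h3.trans ?_
      rw [div_le_div_iff₀ hlogRpos hlz]
      have hY0 : 0 ≤ Y := by positivity
      nlinarith
    have herr : (R : ℝ) ^ 4 + R ≤ 4 * Y / Real.log z := by
      have h1 : (R : ℝ) ^ 4 ≤ z ^ ((1 : ℝ) / 2) := by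
        calc (R : ℝ) ^ 4 ≤ (z ^ ((1 : ℝ) / 8)) ^ 4 := by gcongr
          _ = z ^ ((1 : ℝ) / 2) := by
            rw [← Real.rpow_natCast, ← Real.rpow_mul hz0.le]
            norm_num
      have h2 : (R : ℝ) ≤ (R : ℝ) ^ 4 := by
        have : (1 : ℝ) ≤ R := by exact_mod_cast hR1
        nlinarith [pow_le_pow_right₀ this (show 1 ≤ 4 by norm_num)]
      have h3 : Real.log z ≤ 2 * z ^ ((1 : ℝ) / 2) := by
        have h4 : Real.log (z ^ ((1 : ℝ) / 2)) ≤ z ^ ((1 : ℝ) / 2) - 1 :=
          Real.log_le_sub_one_of_pos (by positivity)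
        rw [Real.log_rpow hz0] at h4
        linarith
      have h5 : z ^ ((1 : ℝ) / 2) * z ^ ((1 : ℝ) / 2) = z := by
        rw [← Real.rpow_add hz0]
        norm_num
      have h6 : z ^ ((1 : ℝ) / 2) ≤ 2 * z / Real.log z := by
        rw [le_div_iff₀ hlz]
        calc z ^ ((1 : ℝ) / 2) * Real.log z ≤ z ^ ((1 : ℝ) / 2) * (2 * z ^ ((1 : ℝ) / 2)) := by
              gcongr
          _ = 2 * z := by linear_combination 2 * h5
      have h7 : 2 * z / Real.log z ≤ 2 * Y / Real.log z := by gcongr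
      have h8 : 2 * (2 * Y / Real.log z) = 4 * Y / Real.log z := by ring
      linarith
    have h9 : 48 * Y / Real.log z + 4 * Y / Real.log z ≤ 60 * Y / Real.log z := by
      rw [← add_div]
      have hY0 : 0 ≤ Y := by positivity
      gcongr
      linarith
    linarith
  · -- trivial bound
    have h1 : ((PS x y q c).card : ℝ) ≤ z + 1 := by
      have h2 := card_class x y q c hq
      have h3 : ((PS x y q c).card : ℝ) ≤
          (((Ioc x (x + y)).filter (fun n => n ≡ c [MOD q])).card : ℝ) := by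
        have h4 : (PS x y q c).card ≤
            ((Ioc x (x + y)).filter (fun n => n ≡ c [MOD q])).card := by
          apply Finset.card_le_card
          intro p hp
          unfold PS at hp
          rw [Finset.mem_filter] at hp ⊢
          exact ⟨hp.1, hp.2.2⟩
        exact_mod_cast h4
      have h4 := (abs_le.1 h2).2
      linarith
    have h2 : Real.log z ≤ 12 := by
      have h3 := Real.log_le_log (by linarith) hsmall.le
      rw [Real.log_pow] at h3
      have h4 := Real.log_two_lt_d9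
      push_cast at h3
      linarith
    rw [le_div_iff₀ hlz]
    have hz3 : z + 1 ≤ 2 * Y := by linarith
    have hc0 : (0 : ℝ) ≤ ((PS x y q c).card : ℝ) := Nat.cast_nonneg _
    nlinarith

/-- dyadic blocks -/
lemma dyadic_sum : ∃ C : ℝ, 0 < C ∧ ∀ j q c : ℕ, 2 ≤ j → 1 ≤ q → q ^ 2 ≤ 2 ^ j →
    ∑ p ∈ PS (2 ^ j) (2 ^ j) q c, (1 : ℝ) / p ≤ C / (Nat.totient q * j) := by
  obtain ⟨C, hC, hBT⟩ := brun_titchmarsh
  refine ⟨4 * C + 4, by positivity, ?_⟩
  intro j q c hj hq hqj
  have hφ : (0 : ℝ) < Nat.totient q := by exact_mod_cast Nat.totient_pos.2 hq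
  have hq0 : (0 : ℝ) < q := by exact_mod_cast hq
  have hj0 : (0 : ℝ) < j := by exact_mod_cast (show 0 < j by omega)
  have h2j : (0 : ℝ) < 2 ^ j := by positivity
  have h1 : ∑ p ∈ PS (2 ^ j) (2 ^ j) q c, (1 : ℝ) / p ≤
      ((PS (2 ^ j) (2 ^ j) q c).card : ℝ) / 2 ^ j := by
    rw [div_eq_mul_one_div, ← nsmul_eq_mul, ← Finset.sum_const]
    refine Finset.sum_le_sum fun p hp => ?_
    unfold PS at hp
    rw [Finset.mem_filter, Finset.mem_Ioc] at hp
    have h2 : ((2 : ℝ) ^ j) ≤ p := by exact_mod_cast hp.1.1.le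
    exact one_div_le_one_div_of_le h2j h2
  refine h1.trans ?_
  -- `q ≤ 2 ^ (j / 2)`
  have hqr : (q : ℝ) ^ 2 ≤ 2 ^ j := by exact_mod_cast hqj
  by_cases h2q : 2 * q ≤ 2 ^ j
  · have h2 := hBT (2 ^ j) (2 ^ j) q c hq h2q
    push_cast at h2
    have hz : (1 : ℝ) < (2 : ℝ) ^ j / q := by
      rw [lt_div_iff₀ hq0]
      have h3 : (2 : ℝ) * q ≤ 2 ^ j := by exact_mod_cast h2q
      linarith
    have hlog : Real.log 2 * j / 2 ≤ Real.log ((2 : ℝ) ^ j / q) := by
      rw [Real.log_div h2j.ne' hq0.ne', Real.log_pow]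
      have h3 : Real.log ((q : ℝ) ^ 2) ≤ Real.log ((2 : ℝ) ^ j) :=
        Real.log_le_log (by positivity) hqr
      rw [Real.log_pow, Real.log_pow] at h3
      push_cast at h3
      linarith
    have hl2 : (1 : ℝ) / 2 ≤ Real.log 2 := by
      have := Real.log_two_gt_d9
      linarith
    have hlog2 : (j : ℝ) / 4 ≤ Real.log ((2 : ℝ) ^ j / q) := by
      refine le_trans ?_ hlog
      nlinarith
    calc ((PS (2 ^ j) (2 ^ j) q c).card : ℝ) / 2 ^ j
        ≤ (C * 2 ^ j / (Nat.totient q * Real.log ((2 : ℝ) ^ j / q))) / 2 ^ j := by gcongr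
      _ = C / (Nat.totient q * Real.log ((2 : ℝ) ^ j / q)) := by field_simp
      _ ≤ C / (Nat.totient q * ((j : ℝ) / 4)) := by gcongr
      _ = 4 * C / (Nat.totient q * j) := by field_simp
      _ ≤ (4 * C + 4) / (Nat.totient q * j) := by gcongr; linarith
  · -- `2 q > 2 ^ j`, `q ^ 2 ≤ 2 ^ j`: `j = 2` at most
    push Not at h2q
    have h3 : (2 : ℕ) ^ j < 4 := by nlinarith
    have h4 : (2 : ℕ) ^ 2 ≤ 2 ^ j := Nat.pow_le_pow_right (by norm_num) hj
    omega

/-- **Reciprocals of primes in a class, between `X` and `X ^ 2`**, uniform for `q ^ 2 ≤ X` -/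
theorem sum_inv_class : ∃ C : ℝ, 0 < C ∧ ∀ k q c : ℕ, 1 ≤ q → q ^ 2 ≤ 2 ^ 2 ^ k →
    ∑ p ∈ (Ioc (2 ^ 2 ^ k) (2 ^ 2 ^ (k + 1))).filter (fun p => p.Prime ∧ p ≡ c [MOD q]),
      (1 : ℝ) / p ≤ C / Nat.totient q := by
  classical
  obtain ⟨C, hC, hdy⟩ := dyadic_sum
  refine ⟨C + 1, by positivity, ?_⟩
  intro k q c hq hqk
  have hφ : (0 : ℝ) < Nat.totient q := by exact_mod_cast Nat.totient_pos.2 hq
  rcases Nat.eq_zero_or_pos k with hk | hk
  · subst hk
    have hq1 : q = 1 := by
      simp only [pow_zero, pow_one] at hqk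
      nlinarith
    subst hq1
    have h1 : ∑ p ∈ (Ioc (2 ^ 2 ^ 0) (2 ^ 2 ^ (0 + 1))).filter
        (fun p => p.Prime ∧ p ≡ c [MOD 1]), (1 : ℝ) / p ≤
        ∑ p ∈ ({3} : Finset ℕ), (1 : ℝ) / p := by
      refine Finset.sum_le_sum_of_subset_of_nonneg ?_ fun _ _ _ => by positivity
      intro p hp
      rw [Finset.mem_filter, Finset.mem_Ioc] at hp
      obtain ⟨⟨h1, h2⟩, h3, -⟩ := hp
      norm_num at h1 h2
      rw [Finset.mem_singleton]
      have : p = 3 ∨ p = 4 := by omega
      rcases this with h | h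
      · exact h
      · subst h
        norm_num at h3
    refine h1.trans ?_
    rw [Finset.sum_singleton, Nat.totient_one]
    push_cast
    linarith
  -- decomposition into dyadic blocks
  have hsub : (Ioc (2 ^ 2 ^ k) (2 ^ 2 ^ (k + 1))).filter (fun p => p.Prime ∧ p ≡ c [MOD q]) ⊆
      (Ico (2 ^ k) (2 ^ (k + 1))).biUnion fun j => PS (2 ^ j) (2 ^ j) q c := by
    intro p hp
    rw [Finset.mem_filter, Finset.mem_Ioc] at hp
    obtain ⟨⟨h1, h2⟩, h3, h4⟩ := hp
    have hp0 : p - 1 ≠ 0 := by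
      have := h3.two_le
      omega
    rw [Finset.mem_biUnion]
    refine ⟨Nat.log 2 (p - 1), ?_, ?_⟩
    · rw [Finset.mem_Ico]
      refine ⟨?_, ?_⟩
      · apply Nat.le_log_of_pow_le (by norm_num)
        omega
      · apply Nat.log_lt_of_lt_pow hp0
        have := h3.pos
        omega
    · unfold PS
      rw [Finset.mem_filter, Finset.mem_Ioc]
      have h5 := Nat.pow_log_le_self 2 hp0
      have h6 := Nat.lt_pow_succ_log_self (b := 2) (by norm_num) (p - 1)
      rw [Nat.succ_eq_add_one, pow_succ] at h6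
      refine ⟨⟨?_, ?_⟩, h3, h4⟩
      · have := h3.pos
        omega
      · omega
  have h1 : ∑ p ∈ (Ioc (2 ^ 2 ^ k) (2 ^ 2 ^ (k + 1))).filter
      (fun p => p.Prime ∧ p ≡ c [MOD q]), (1 : ℝ) / p ≤
      ∑ j ∈ Ico (2 ^ k) (2 ^ (k + 1)), ∑ p ∈ PS (2 ^ j) (2 ^ j) q c, (1 : ℝ) / p := by
    refine (Finset.sum_le_sum_of_subset_of_nonneg hsub fun _ _ _ => by positivity).trans ?_
    rw [Finset.sum_biUnion]
    intro i _ j _ hij
    rw [Function.onFun, Finset.disjoint_left]
    intro p hp1 hp2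
    unfold PS at hp1 hp2
    rw [Finset.mem_filter, Finset.mem_Ioc] at hp1 hp2
    rcases Nat.lt_or_gt_of_ne hij with h | h
    · have h5 : (2 : ℕ) ^ (i + 1) ≤ 2 ^ j := Nat.pow_le_pow_right (by norm_num) h
      rw [pow_succ] at h5
      omega
    · have h5 : (2 : ℕ) ^ (j + 1) ≤ 2 ^ i := Nat.pow_le_pow_right (by norm_num) h
      rw [pow_succ] at h5
      omega
  refine h1.trans ?_
  have h2k : (2 : ℕ) ≤ 2 ^ k := by
    calc 2 = 2 ^ 1 := (pow_one 2).symm
      _ ≤ 2 ^ k := Nat.pow_le_pow_right (by norm_num) hk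
  have h3 : ∀ j ∈ Ico (2 ^ k) (2 ^ (k + 1)), ∑ p ∈ PS (2 ^ j) (2 ^ j) q c, (1 : ℝ) / p ≤
      C / (Nat.totient q * (2 : ℝ) ^ k) := by
    intro j hj
    rw [Finset.mem_Ico] at hj
    refine (hdy j q c (h2k.trans hj.1) hq (hqk.trans
      (Nat.pow_le_pow_right (by norm_num) hj.1))).trans ?_
    have h4 : ((2 : ℝ) ^ k) ≤ j := by exact_mod_cast hj.1
    gcongr
  refine (Finset.sum_le_sum h3).trans ?_
  rw [Finset.sum_const, Nat.card_Ico, pow_succ, nsmul_eq_mul]
  have h5 : (2 : ℕ) ^ k * 2 - 2 ^ k = 2 ^ k := by omega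
  rw [h5]
  push_cast
  have h6 : (2 : ℝ) ^ k * (C / (Nat.totient q * (2 : ℝ) ^ k)) = C / Nat.totient q := by
    field_simp
  rw [h6]
  gcongr
  linarith

end

end Pool.Agent.H13.BT
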