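import Pool.Agent.H37.SFQ.Selberg

/-!
Selberg weights supported on the integers coprime to `q` (after H37/SFQ/Selberg).
-/

set_option autoImplicit false

open Finset

namespace Pool.Agent.H13.BT

noncomputable section

/-- `G(R) = ∑_{k ≤ R} μ²(k)/φ(k)` -/
def selG (q R : ℕ) : ℝ :=
  ∑ k ∈ Icc 1 R, if Squarefree k ∧ k.Coprime q then (1 : ℝ) / Nat.totient k else 0

/-- diagonal coordinates -/
def selY (q R k : ℕ) : ℝ :=
  if 1 ≤ k ∧ k ≤ R ∧ (Squarefree k ∧ k.Coprime q) then (ArithmeticFunction.moebius k : ℝ) / (Nat.totient k * selG q R)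
  else 0

/-- the Selberg weights -/
def selL (q R e : ℕ) : ℝ :=
  e * ∑ k ∈ Icc 1 R, if e ∣ k then (ArithmeticFunction.moebius (k / e) : ℝ) * selY q R k else 0

lemma selG_pos (q : ℕ) {R : ℕ} (hR : 1 ≤ R) : 0 < selG q R := by
  unfold selG
  have h1 : (1 : ℝ) ≤ ∑ k ∈ Icc 1 R, if Squarefree k ∧ k.Coprime q then (1 : ℝ) / Nat.totient k else 0 := by
    have h2 : (if Squarefree 1 ∧ Nat.Coprime 1 q then (1 : ℝ) / Nat.totient 1 else 0) = 1 := by simp
    exact le_trans (le_of_eq h2.symm)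
      (Finset.single_le_sum
      (f := fun k : ℕ => if Squarefree k ∧ k.Coprime q then (1 : ℝ) / Nat.totient k else 0)
      (fun k _ => by positivity) (Finset.mem_Icc.2 ⟨le_refl 1, hR⟩))
  linarith

lemma moeb_sq {k : ℕ} (hk : Squarefree k) : (ArithmeticFunction.moebius k : ℝ) ^ 2 = 1 := by
  exact_mod_cast ArithmeticFunction.moebius_sq_eq_one_of_squarefree hk

lemma abs_moeb {k : ℕ} (hk : Squarefree k) : |(ArithmeticFunction.moebius k : ℝ)| = 1 := by
  have := moeb_sq hk
  rw [← sq_abs] at this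
  nlinarith [abs_nonneg (ArithmeticFunction.moebius k : ℝ)]

lemma sum_abs_selY (q : ℕ) {R : ℕ} (hR : 1 ≤ R) : ∑ k ∈ Icc 1 R, |selY q R k| = 1 := by
  have hG := selG_pos q hR
  have h1 : ∀ k ∈ Icc 1 R, |selY q R k| =
      (if Squarefree k ∧ k.Coprime q then (1 : ℝ) / Nat.totient k else 0) / selG q R := by
    intro k hk
    rw [Finset.mem_Icc] at hk
    unfold selY
    by_cases h : Squarefree k ∧ k.Coprime q
    · rw [if_pos ⟨hk.1, hk.2, h⟩, if_pos h, abs_div, abs_moeb h.1, abs_of_nonneg (by positivity),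
        div_div]
    · rw [if_neg (fun hc => h hc.2.2), if_neg h]
      simp
  rw [Finset.sum_congr rfl h1, ← Finset.sum_div]
  exact div_self hG.ne'

lemma selL_one (q : ℕ) {R : ℕ} (hR : 1 ≤ R) : selL q R 1 = 1 := by
  have hG := selG_pos q hR
  unfold selL
  have h1 : ∀ k ∈ Icc 1 R, (if 1 ∣ k then (ArithmeticFunction.moebius (k / 1) : ℝ) * selY q R k else 0) =
      (if Squarefree k ∧ k.Coprime q then (1 : ℝ) / Nat.totient k else 0) / selG q R := by
    intro k hk
    rw [Finset.mem_Icc] at hk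
    rw [if_pos (one_dvd k), Nat.div_one]
    unfold selY
    by_cases h : Squarefree k ∧ k.Coprime q
    · rw [if_pos ⟨hk.1, hk.2, h⟩, if_pos h, div_div, ← mul_div_assoc, ← sq, moeb_sq h.1]
    · rw [if_neg (fun hc => h hc.2.2), if_neg h]
      simp
  rw [Finset.sum_congr rfl h1, ← Finset.sum_div]
  simp only [Nat.cast_one, one_mul]
  exact div_self hG.ne'

lemma abs_selL_le (q : ℕ) {R : ℕ} (hR : 1 ≤ R) (e : ℕ) : |selL q R e| ≤ e := by
  unfold selL
  rw [abs_mul, abs_of_nonneg (Nat.cast_nonneg e)]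
  have h1 : |∑ k ∈ Icc 1 R, if e ∣ k then (ArithmeticFunction.moebius (k / e) : ℝ) * selY q R k else 0|
      ≤ 1 := by
    rw [← sum_abs_selY q hR]
    refine (Finset.abs_sum_le_sum_abs _ _).trans (Finset.sum_le_sum fun k _ => ?_)
    split_ifs
    · rw [abs_mul]
      have h2 : |(ArithmeticFunction.moebius (k / e) : ℝ)| ≤ 1 := by
        exact_mod_cast ArithmeticFunction.abs_moebius_le_one (n := k / e)
      have := mul_le_mul_of_nonneg_right h2 (abs_nonneg (selY q R k))
      linarith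
    · simp
  have := mul_le_mul_of_nonneg_left h1 (Nat.cast_nonneg (α := ℝ) e)
  linarith

lemma sum_moeb (n : ℕ) : ∑ i ∈ n.divisors, (ArithmeticFunction.moebius i : ℝ) =
    if n = 1 then 1 else 0 := by
  have h1 := ArithmeticFunction.moebius_mul_coe_zeta
  have h2 : (ArithmeticFunction.moebius * (ArithmeticFunction.zeta : ArithmeticFunction ℤ)) n =
      (1 : ArithmeticFunction ℤ) n := by rw [h1]
  rw [ArithmeticFunction.coe_mul_zeta_apply, ArithmeticFunction.one_apply] at h2
  have h3 : ((∑ i ∈ n.divisors, ArithmeticFunction.moebius i : ℤ) : ℝ) =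
      ((if n = 1 then 1 else 0 : ℤ) : ℝ) := by rw [h2]
  push_cast at h3
  exact h3

lemma inner_moeb {R k j : ℕ} (hk : 1 ≤ k) (hj : 1 ≤ j) (hjR : j ≤ R) :
    (∑ e ∈ Icc 1 R, if k ∣ e ∧ e ∣ j then (ArithmeticFunction.moebius (j / e) : ℝ) else 0) =
      if j = k then 1 else 0 := by
  rw [← Finset.sum_filter]
  by_cases hkj : k ∣ j
  · obtain ⟨m, rfl⟩ := hkj
    have hm : m ≠ 0 := by rintro rfl; simp at hj
    have hk0 : 0 < k := hk
    have h1 : ∑ e ∈ (Icc 1 R).filter (fun e => k ∣ e ∧ e ∣ k * m),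
        (ArithmeticFunction.moebius (k * m / e) : ℝ) =
        ∑ i ∈ m.divisors, (ArithmeticFunction.moebius i : ℝ) := by
      refine Finset.sum_nbij' (fun e => k * m / e) (fun i => k * m / i) ?_ ?_ ?_ ?_ ?_
      · intro e he
        rw [Finset.mem_filter, Finset.mem_Icc] at he
        obtain ⟨⟨h1, h2⟩, ⟨a, rfl⟩, ⟨b, hb⟩⟩ := he
        have ha : 0 < a := Nat.pos_of_ne_zero (by rintro rfl; simp at h1)
        have hm' : m = a * b := by
          have : k * m = k * (a * b) := by rw [hb]; ring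
          exact Nat.eq_of_mul_eq_mul_left hk0 this
        rw [Nat.mem_divisors]
        refine ⟨⟨a, ?_⟩, hm⟩
        rw [hb, Nat.mul_div_cancel_left _ (by positivity), hm', mul_comm]
      · intro i hi
        rw [Nat.mem_divisors] at hi
        obtain ⟨⟨b, rfl⟩, _⟩ := hi
        have hi0 : 0 < i := Nat.pos_of_ne_zero (by rintro rfl; simp at hm)
        have hb0 : 0 < b := Nat.pos_of_ne_zero (by rintro rfl; simp at hm)
        have h2 : k * (i * b) / i = k * b := by
          rw [show k * (i * b) = i * (k * b) by ring, Nat.mul_div_cancel_left _ hi0]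
        rw [Finset.mem_filter, Finset.mem_Icc, h2]
        refine ⟨⟨Nat.mul_pos hk0 hb0, ?_⟩, ⟨b, rfl⟩, ⟨i, by ring⟩⟩
        refine le_trans ?_ hjR
        exact Nat.mul_le_mul_left k (Nat.le_mul_of_pos_left b hi0)
      · intro e he
        rw [Finset.mem_filter, Finset.mem_Icc] at he
        exact Nat.div_div_self he.2.2 (by positivity)
      · intro i hi
        rw [Nat.mem_divisors] at hi
        exact Nat.div_div_self (hi.1.mul_left k) (by positivity)
      · intro e _
        rfl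
    rw [h1, sum_moeb m]
    by_cases h2 : m = 1
    · subst h2; simp
    · rw [if_neg h2, if_neg]
      intro h3
      apply h2
      have : k * m = k * 1 := by rw [h3, mul_one]
      exact Nat.eq_of_mul_eq_mul_left hk0 this
  · rw [if_neg (fun h => hkj (by rw [h]))]
    refine Finset.sum_eq_zero fun e he => ?_
    rw [Finset.mem_filter] at he
    exact absurd (he.2.1.trans he.2.2) hkj

lemma selL_inv (q : ℕ) {R k : ℕ} (hk : 1 ≤ k) (hkR : k ≤ R) :
    (∑ e ∈ Icc 1 R, if k ∣ e then selL q R e / e else 0) = selY q R k := by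
  have h1 : ∀ e ∈ Icc 1 R, (if k ∣ e then selL q R e / e else 0) =
      ∑ j ∈ Icc 1 R, selY q R j * (if k ∣ e ∧ e ∣ j then (ArithmeticFunction.moebius (j / e) : ℝ) else 0) := by
    intro e he
    rw [Finset.mem_Icc] at he
    have he0 : (e : ℝ) ≠ 0 := by
      have : e ≠ 0 := by omega
      exact_mod_cast this
    by_cases h : k ∣ e
    · rw [if_pos h]
      unfold selL
      rw [mul_div_cancel_left₀ _ he0]
      refine Finset.sum_congr rfl fun j _ => ?_
      by_cases h2 : e ∣ j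
      · rw [if_pos h2, if_pos ⟨h, h2⟩, mul_comm]
      · rw [if_neg h2, if_neg (fun hc => h2 hc.2), mul_zero]
    · rw [if_neg h]
      symm
      refine Finset.sum_eq_zero fun j _ => ?_
      rw [if_neg (fun hc => h hc.1), mul_zero]
  rw [Finset.sum_congr rfl h1, Finset.sum_comm]
  simp_rw [← Finset.mul_sum]
  rw [Finset.sum_eq_single k]
  · rw [inner_moeb hk hk hkR, if_pos rfl, mul_one]
  · intro j hj hjk
    rw [Finset.mem_Icc] at hj
    rw [inner_moeb hk hj.1 hj.2, if_neg hjk, mul_zero]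
  · intro h
    exact absurd (Finset.mem_Icc.2 ⟨hk, hkR⟩) h

/-- The quadratic form. -/
lemma selL_quad (q : ℕ) {R : ℕ} (hR : 1 ≤ R) :
    ∑ a ∈ Icc 1 R, ∑ b ∈ Icc 1 R, selL q R a * selL q R b / (Nat.lcm a b : ℝ) = 1 / selG q R := by
  have hG := selG_pos q hR
  have h1 : ∀ a ∈ Icc 1 R, ∀ b ∈ Icc 1 R, selL q R a * selL q R b / (Nat.lcm a b : ℝ) =
      ∑ k ∈ Icc 1 R, (Nat.totient k : ℝ) * ((if k ∣ a then selL q R a / a else 0) *
        (if k ∣ b then selL q R b / b else 0)) := by
    intro a ha b hb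
    rw [Finset.mem_Icc] at ha hb
    have ha0 : (a : ℝ) ≠ 0 := by
      have : a ≠ 0 := by omega
      exact_mod_cast this
    have hb0 : (b : ℝ) ≠ 0 := by
      have : b ≠ 0 := by omega
      exact_mod_cast this
    have hg0 : Nat.gcd a b ≠ 0 := by
      intro h
      rw [Nat.gcd_eq_zero_iff] at h
      omega
    have h2 : (Nat.gcd a b : ℝ) = ∑ k ∈ Icc 1 R, if k ∣ a ∧ k ∣ b then (Nat.totient k : ℝ) else 0 := by
      rw [← Finset.sum_filter]
      have h3 := Nat.sum_totient (Nat.gcd a b)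
      have h4 : (Nat.gcd a b).divisors = (Icc 1 R).filter (fun k => k ∣ a ∧ k ∣ b) := by
        ext k
        rw [Nat.mem_divisors, Finset.mem_filter, Finset.mem_Icc, Nat.dvd_gcd_iff]
        constructor
        · rintro ⟨h5, _⟩
          exact ⟨⟨Nat.pos_of_dvd_of_pos h5.1 (by omega), (Nat.le_of_dvd (by omega) h5.1).trans ha.2⟩, h5⟩
        · rintro ⟨_, h5⟩
          exact ⟨h5, hg0⟩
      rw [← h4]
      exact_mod_cast h3.symm
    have h3 : (Nat.gcd a b : ℝ) * (Nat.lcm a b : ℝ) = a * b := by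
      exact_mod_cast Nat.gcd_mul_lcm a b
    have hl0 : (Nat.lcm a b : ℝ) ≠ 0 := by
      intro h
      rw [h, mul_zero] at h3
      exact mul_ne_zero ha0 hb0 h3.symm
    have h4 : selL q R a * selL q R b / (Nat.lcm a b : ℝ) =
        (Nat.gcd a b : ℝ) * (selL q R a / a * (selL q R b / b)) := by
      field_simp
      linear_combination (-(selL q R a * selL q R b)) * h3
    rw [h4, h2, Finset.sum_mul]
    refine Finset.sum_congr rfl fun k _ => ?_
    by_cases h5 : k ∣ a
    · by_cases h6 : k ∣ b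
      · rw [if_pos ⟨h5, h6⟩, if_pos h5, if_pos h6]
      · rw [if_neg (fun hc => h6 hc.2), if_neg h6]
        ring
    · rw [if_neg (fun hc => h5 hc.1), if_neg h5]
      ring
  have h2 : ∑ a ∈ Icc 1 R, ∑ b ∈ Icc 1 R, selL q R a * selL q R b / (Nat.lcm a b : ℝ) =
      ∑ k ∈ Icc 1 R, (Nat.totient k : ℝ) * selY q R k ^ 2 := by
    rw [Finset.sum_congr rfl fun a ha => Finset.sum_congr rfl fun b hb => h1 a ha b hb]
    have h3 : ∀ a ∈ Icc 1 R, ∑ b ∈ Icc 1 R, ∑ k ∈ Icc 1 R, (Nat.totient k : ℝ) *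
        ((if k ∣ a then selL q R a / a else 0) * (if k ∣ b then selL q R b / b else 0)) =
        ∑ k ∈ Icc 1 R, (Nat.totient k : ℝ) * ((if k ∣ a then selL q R a / a else 0) *
          ∑ b ∈ Icc 1 R, (if k ∣ b then selL q R b / b else 0)) := by
      intro a _
      rw [Finset.sum_comm]
      refine Finset.sum_congr rfl fun k _ => ?_
      rw [Finset.mul_sum, Finset.mul_sum]
    rw [Finset.sum_congr rfl h3, Finset.sum_comm]
    refine Finset.sum_congr rfl fun k hk => ?_
    rw [Finset.mem_Icc] at hk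
    rw [← Finset.mul_sum, ← Finset.sum_mul, selL_inv q hk.1 hk.2, sq]
  rw [h2]
  have h3 : ∀ k ∈ Icc 1 R, (Nat.totient k : ℝ) * selY q R k ^ 2 =
      (if Squarefree k ∧ k.Coprime q then (1 : ℝ) / Nat.totient k else 0) / selG q R ^ 2 := by
    intro k hk
    rw [Finset.mem_Icc] at hk
    unfold selY
    have hφ : (Nat.totient k : ℝ) ≠ 0 := by
      have := Nat.totient_pos.2 (show 0 < k by omega)
      exact_mod_cast this.ne'
    by_cases h : Squarefree k ∧ k.Coprime q
    · rw [if_pos ⟨hk.1, hk.2, h⟩, if_pos h, div_pow, moeb_sq h.1]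
      field_simp
    · rw [if_neg (fun hc => h hc.2.2), if_neg h]
      simp
  rw [Finset.sum_congr rfl h3, ← Finset.sum_div]
  change selG q R / selG q R ^ 2 = 1 / selG q R
  field_simp

end

end Pool.Agent.H13.BT
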